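import Pool.Agent.Q163.TB.RankFour

set_option autoImplicit false

/-!
A tangential `1`-block over `GF(7)` of rank four with nineteen points that has a modular copoint
but is not supersolvable. The seven points with first coordinate `1` lie over the seven elements
of the field; the other twelve points are the directions of the lines joining them and form the
modular copoint.
-/

namespace Pool.Agent.Results.MP_e1005d_co.NotSupersolvable

open Pool.Agent.Helper236 Pool.Agent.Q163.TB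

/-- `M` is a tangential `k`-block over the finite field `F`: it is finite, simple and representable
over `F`, its critical exponent is larger than `k`, and every loopless proper minor of `M` has
critical exponent at most `k`. -/
def IsTangentialBlock (F : Type) [Field F] (k : ℕ) {α : Type} (M : Matroid α) : Prop :=
  M.Finite ∧ IsSimple M ∧ Representable F M ∧ (k : ℕ∞) < critExp M (Nat.card F) ∧
    ∀ N : Matroid α, N.IsMinor M → N ≠ M → (∀ e ∈ N.E, N.IsNonloop e) →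
      critExp N (Nat.card F) ≤ k

/-- `M` is supersolvable: it has a modular flag, a chain `G 0 ⊆ G 1 ⊆ ... ⊆ G r` of modular flats
with `r (G i) = i`, where `r` is the rank of `M`. -/
def IsSupersolvable {α : Type} (M : Matroid α) : Prop :=
  ∃ G : ℕ → Set α, (∀ i ≤ rk M M.E, IsModularFlat M (G i) ∧ rk M (G i) = i) ∧
    ∀ i < rk M M.E, G i ⊆ G (i + 1)

/-- nineteen points of the projective space of dimension three over `GF(7)` -/
def tab : List (List ℕ) :=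
  [[1, 0, 0, 0], [1, 1, 0, 0], [1, 2, 1, 0], [1, 3, 0, 1], [1, 4, 1, 1], [1, 5, 0, 2],
   [1, 6, 0, 2], [0, 1, 0, 0], [0, 1, 0, 4], [0, 1, 0, 5], [0, 1, 0, 6], [0, 1, 1, 0],
   [0, 1, 2, 2], [0, 1, 2, 3], [0, 1, 3, 4], [0, 1, 4, 0], [0, 1, 5, 4], [0, 1, 5, 5],
   [0, 1, 6, 1]]

/-- tangents at the points -/
def T1 : List (List ℕ) :=
  [[0, 1, 0, 0], [1, 6, 0, 0], [1, 3, 0, 0], [1, 2, 0, 0], [1, 1, 3, 6], [1, 2, 6, 5],
   [1, 1, 0, 0], [1, 0, 1, 2], [1, 1, 1, 5], [1, 2, 6, 1], [1, 1, 0, 1], [1, 1, 6, 2],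
   [1, 2, 0, 6], [1, 2, 4, 6], [1, 3, 6, 0], [1, 1, 5, 2], [1, 1, 2, 6], [1, 1, 2, 2],
   [1, 1, 0, 6]]

/-- tangents at the lines -/
def T2 : List (List ℕ) :=
  [[0, 0, 1, 2], [0, 1, 5, 0], [0, 1, 1, 4], [0, 1, 0, 3], [0, 1, 0, 1], [0, 1, 1, 5],
   [0, 1, 6, 0], [0, 1, 0, 2], [0, 1, 2, 0], [0, 1, 2, 6], [0, 1, 1, 3], [0, 1, 0, 6],
   [1, 6, 1, 0], [1, 6, 3, 2], [1, 6, 5, 5], [1, 6, 0, 6], [1, 6, 4, 3], [1, 6, 0, 4],
   [1, 6, 0, 5], [1, 6, 3, 5], [1, 6, 2, 0], [1, 6, 4, 4], [1, 6, 0, 1], [1, 1, 4, 3],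
   [1, 1, 4, 5], [1, 3, 0, 6], [1, 4, 5, 5], [1, 0, 6, 2], [1, 2, 2, 1], [1, 1, 4, 1],
   [1, 1, 4, 6], [1, 1, 4, 2], [1, 2, 2, 6], [1, 1, 6, 3], [1, 0, 2, 6], [1, 5, 0, 5],
   [1, 1, 0, 3], [1, 1, 2, 3], [1, 2, 4, 0], [1, 2, 3, 0], [1, 1, 3, 3], [1, 1, 1, 3],
   [1, 2, 0, 5], [1, 1, 2, 0], [1, 0, 1, 5], [1, 2, 4, 1], [1, 1, 1, 1], [1, 1, 0, 2],
   [1, 3, 1, 0], [1, 2, 6, 6], [1, 0, 1, 3], [1, 1, 1, 4], [1, 2, 5, 5], [1, 2, 1, 5],
   [1, 3, 5, 6], [1, 3, 1, 6], [1, 2, 4, 5], [1, 3, 6, 6], [1, 3, 2, 1], [1, 1, 6, 0],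
   [1, 4, 0, 5], [1, 2, 0, 4], [1, 1, 5, 0], [1, 2, 4, 4], [1, 1, 1, 0], [1, 0, 1, 0],
   [1, 0, 0, 1], [1, 0, 2, 5], [1, 0, 1, 4], [1, 0, 1, 1], [1, 1, 6, 5], [1, 1, 5, 5],
   [1, 1, 0, 5], [1, 2, 5, 1], [1, 2, 1, 1], [1, 2, 3, 1], [1, 2, 0, 1], [1, 1, 6, 1],
   [1, 1, 2, 1], [1, 1, 5, 1], [1, 1, 3, 1], [1, 3, 2, 0], [1, 1, 1, 2], [1, 1, 1, 6],
   [1, 2, 3, 6], [1, 1, 5, 6], [1, 3, 5, 0]]

/-- hyperplanes with three independent points -/
def H : List (List ℕ × List ℕ × List ℕ × List ℕ) :=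
  [([1, 1, 0, 4], [1, 5, 0, 2], [0, 1, 0, 5], [0, 1, 5, 5]),
   ([1, 1, 3, 0], [1, 6, 0, 2], [0, 1, 2, 2], [0, 1, 2, 3]),
   ([1, 6, 2, 4], [1, 1, 0, 0], [0, 1, 3, 4], [0, 1, 4, 0]),
   ([1, 2, 1, 0], [1, 3, 0, 1], [0, 1, 5, 4], [0, 1, 5, 5])]


theorem tab_nodup : tab.Nodup := by decide +kernel
theorem tab_len : chkLen 4 tab = true := by decide +kernel
theorem tab_simple : chkSimple 4 tab = true := by decide +kernel
theorem tab_dirs : chkDirs 4 tab = true := by decide +kernel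
theorem tab_T1 : chkT1 tab T1 = true := by decide +kernel
theorem tab_T2 : chkT2 4 tab T2 = true := by decide +kernel
theorem tab_H : chkH tab T2 H = true := by decide +kernel
theorem tab_Hyp : chkHyp tab T2 H = true := by decide +kernel

theorem rank_le : rk (Mat 4 tab) (Mat 4 tab).E ≤ 4 := by
  have := Mat_finite 4 tab
  rw [(Mat_rep 4 tab).rk_eq Set.Subset.rfl]
  refine (Submodule.finrank_le _).trans ?_
  rw [Module.finrank_fin_fun]

theorem two_le_rank : 2 ≤ rk (Mat 4 tab) (Mat 4 tab).E := by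
  have hfin := Mat_finite 4 tab
  have h1 := rk_pair (M := Mat 4 tab) (Mat_simple tab_simple tab_nodup)
    (i := (⟨0, by decide⟩ : Fin tab.length)) (j := ⟨1, by decide⟩) (Set.mem_univ _)
    (Set.mem_univ _) (by decide)
  rw [← h1]
  exact rk_le (Mat_rep 4 tab) (Set.subset_univ _) Set.Subset.rfl

/-- There is a tangential `1`-block over `GF(7)` that has a modular copoint and is not
supersolvable. -/
theorem result : ∃ (F : Type) (_ : Field F) (_ : Finite F) (k : ℕ) (α : Type) (M : Matroid α),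
    1 ≤ k ∧ IsTangentialBlock F k M ∧ (∃ H, IsModularHyperplane M H) ∧ ¬ IsSupersolvable M := by
  have hfin := Mat_finite 4 tab
  have hs := Mat_simple tab_simple tab_nodup
  refine ⟨ZMod 7, inferInstance, inferInstance, 1, Fin tab.length, Mat 4 tab, le_refl 1,
    ⟨hfin, hs, ⟨4, pt 4 tab, Mat_rep 4 tab⟩, Mat_critExp_gt (by decide) tab_dirs, ?_⟩,
    modular_hyp tab_len (by decide) tab_dirs, ?_⟩
  · intro N hN hne hl
    exact minor_le (Mat_rep 4 tab) hs (rank_four_flats (Mat_rep 4 tab) hs rank_le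
      (tangent_point tab_len tab_nodup tab_T1) (tangent_line tab_len tab_nodup tab_T2)) hN hne hl
  · rintro ⟨G, hG, -⟩
    obtain ⟨h1, h2⟩ := hG 2 two_le_rank
    exact no_modular_line tab_len tab_nodup tab_simple le_rfl tab_H tab_Hyp h1 h2

end Pool.Agent.Results.MP_e1005d_co.NotSupersolvable
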